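import Pool.Agent.W78.GC.Defs

/-!
Project GC (helper338 for helper78): from pairs of determinant one to integers (S_FINP).
-/

set_option autoImplicit false

namespace Pool.Agent.W338.GC

open Finset Filter
open Pool.Agent.H376R2.MR
open Pool.Agent.W78.GA Pool.Agent.W78.GC

variable {t c : ℤ}

open scoped Classical in
/-- pairs of determinant one with sign `s`, no large square divisor, and `ip` in the given class -/
noncomputable def Bp (t c : ℤ) (Pr : ℤ → Prop) (S : ℕ) (s : ℤ) (X : ℝ) :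
    Finset (Qd t c × Qd t c) :=
  (Bs t c S s X).filter (fun e => Pr (ip e.1 e.2))

lemma mem_Bp {Pr : ℤ → Prop} {S : ℕ} {s : ℤ} {X : ℝ} {e : Qd t c × Qd t c} :
    e ∈ Bp t c Pr S s X ↔ e ∈ Bs t c S s X ∧ Pr (ip e.1 e.2) := by
  simp [Bp]

lemma Bp_mono {Pr : ℤ → Prop} {S S' : ℕ} (h : S ≤ S') (s : ℤ) (X : ℝ) :
    Bp t c Pr S s X ⊆ Bp t c Pr S' s X := by
  intro e he
  rw [mem_Bp] at he ⊢
  exact ⟨Bs_mono h s X he.1, he.2⟩

/-- a positive proportion of pairs with sign `e` and without large square divisors -/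
theorem bp_all {Pr : ℤ → Prop} (h : S_EDGEP t c Pr) (hsqb : S_SQB t c) : ∃ S : ℕ,
    ∀ e : ℤ, e = 1 ∨ e = -1 → ∃ κ X₀ : ℝ, 0 < κ ∧ ∀ X : ℝ, X₀ ≤ X →
      κ * X ≤ ((Bp t c Pr S e X).card : ℝ) := by
  classical
  have key : ∀ e : ℤ, (e = 1 ∨ e = -1) →
      ∃ S : ℕ, ∃ κ X₀ : ℝ, 0 < κ ∧ ∀ X : ℝ, X₀ ≤ X → κ * X ≤ ((Bp t c Pr S e X).card : ℝ) := by
    intro e he
    obtain ⟨κ, hκ, X₁, h⟩ := h e he
    obtain ⟨S, X₂, hS⟩ := hsqb (κ / 2) (by linarith)
    refine ⟨S, κ / 2, max X₁ X₂, by linarith, fun X hX => ?_⟩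
    have h1 := h X ((le_max_left _ _).trans hX)
    have h2 := hS X ((le_max_right _ _).trans hX)
    have h3 : EP t c Pr e X ⊆
        (dedge t c X).filter (fun e => ∃ q : ℕ, S < q ∧ q ^ 2 ∣ NN e) ∪ Bp t c Pr S e X := by
      intro x hx
      obtain ⟨hx1, hx2, hx3⟩ := mem_filter.1 hx
      by_cases h4 : ∃ q : ℕ, S < q ∧ q ^ 2 ∣ NN x
      · exact mem_union_left _ (mem_filter.2 ⟨hx1, h4⟩)
      · push Not at h4
        refine mem_union_right _ (mem_Bp.2 ⟨mem_Bs.2 ⟨hx1, fun q hq => ?_, hx3⟩, hx2⟩)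
        by_contra h5
        exact h4 q (not_le.1 h5) hq
    have h4 : ((EP t c Pr e X).card : ℝ) ≤
        (((dedge t c X).filter (fun e => ∃ q : ℕ, S < q ∧ q ^ 2 ∣ NN e)).card : ℝ) +
        ((Bp t c Pr S e X).card : ℝ) := by
      exact_mod_cast (card_le_card h3).trans (card_union_le _ _)
    linarith
  obtain ⟨S₁, h1⟩ := key 1 (Or.inl rfl)
  obtain ⟨S₂, h2⟩ := key (-1) (Or.inr rfl)
  refine ⟨max S₁ S₂, fun e he => ?_⟩
  rcases he with rfl | rfl
  · obtain ⟨κ, X₀, hκ, h⟩ := h1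
    refine ⟨κ, X₀, hκ, fun X hX => (h X hX).trans ?_⟩
    exact_mod_cast card_le_card (Bp_mono (le_max_left _ _) _ _)
  · obtain ⟨κ, X₀, hκ, h⟩ := h2
    refine ⟨κ, X₀, hκ, fun X hX => (h X hX).trans ?_⟩
    exact_mod_cast card_le_card (Bp_mono (le_max_right _ _) _ _)

/-- from pairs to integers -/
theorem count_of (hD : t ^ 2 < 4 * c) (Pr : ℤ → Prop) (hPr : ∀ n, Pr (-t - n) ↔ Pr n) (hmult : S_MULT t c)
    (htyp : S_TYP t c) (hve : S_VE t c) (S : ℕ) (s : ℤ)
    (h : ∃ κ X₀ : ℝ, 0 < κ ∧ ∀ X : ℝ, X₀ ≤ X → κ * X ≤ ((Bp t c Pr S s X).card : ℝ)) (ε : ℝ)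
    (hε : 0 < ε) : ∃ N₀ : ℕ, ∀ N : ℕ, N₀ ≤ N →
    (N : ℝ) / Real.log N ^ (2 * Real.log 2 + ε) ≤
    (open scoped Classical in
    ((((Icc 1 N).filter (fun n : ℕ => Pr n ∧ SqM S s ((n : ℤ) ^ 2 + t * n + c))).card : ℕ) : ℝ)) := by
  classical
  obtain ⟨b, X₁, hb, hB⟩ := h
  obtain ⟨C, hC, hve⟩ := hve
  set κ : ℝ := min 1 (b / (8 * C)) with hκ
  have hκ0 : 0 < κ := lt_min one_pos (by positivity)
  have hκ1 : κ ≤ 1 := min_le_left _ _
  have hκ2 : C * κ ≤ b / 8 := by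
    have : κ ≤ b / (8 * C) := min_le_right _ _
    calc C * κ ≤ C * (b / (8 * C)) := mul_le_mul_of_nonneg_left this hC.le
      _ = b / 8 := by field_simp
  obtain ⟨X₂, htyp⟩ := htyp (ε / 4) (b * κ / (8 * C)) (by linarith) (by positivity)
  set g : ℝ := 2 * (1 + ε / 4) * Real.log 2 with hg
  have hlog2 : Real.log 2 < 0.6931471808 := Real.log_two_lt_d9
  have hlog2p : 0 < Real.log 2 := Real.log_pos (by norm_num)
  have hgap : 0 < 2 * Real.log 2 + ε - g := by rw [hg]; nlinarith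
  -- the exceptional pairs
  set K₀ : ℕ := ∑ n ∈ Icc (-|t|) |t|, 6 * ((n ^ 2 + t * n + c).natAbs).divisors.card with hK₀
  have hmain : ∀ (N : ℕ) (X : ℝ), X = (N : ℝ) / 2 → X₁ ≤ X → X₂ ≤ X → 3 ≤ X → 4 * (K₀ : ℝ) / b ≤ X →
      (|t| : ℝ) ≤ N →
      b / 2 * X ≤ 12 * ((S : ℝ) ^ 2 * Real.log N ^ g) * ((((Icc 1 N).filter
        (fun n : ℕ => Pr n ∧ SqM S s ((n : ℤ) ^ 2 + t * n + c))).card : ℕ) : ℝ) := by
    intro N X hXN hN1 hN2 hN3 hN4 hN5
    have hXpos : (0 : ℝ) < X := by linarith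
    set V := (pball t c X).filter (fun z =>
      (1 + ε / 4) * Real.log (Real.log X) < (((nm z).primeFactors.card : ℕ) : ℝ)) with hV
    have hVc : (V.card : ℝ) ≤ b * κ / (8 * C) * X := htyp X hN2
    have hVE := hve κ X V hκ0 hκ1 (by linarith)
    have hVi : ((V ∩ pball t c X).card : ℝ) ≤ b * κ / (8 * C) * X :=
      le_trans (by exact_mod_cast card_le_card inter_subset_left) hVc
    set S0 := (Bp t c Pr S s X).filter (fun e => ¬ (e.1 ∈ V ∨ e.2 ∈ V)) with hS
    set S' := S0.filter (fun e => ¬ |ip e.1 e.2| ≤ |t|) with hS'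
    have hS1 : ((Bp t c Pr S s X).card : ℝ) ≤
        (((dedge t c X).filter (fun e => e.1 ∈ V ∨ e.2 ∈ V)).card : ℝ) + S0.card := by
      have : Bp t c Pr S s X ⊆ (dedge t c X).filter (fun e => e.1 ∈ V ∨ e.2 ∈ V) ∪ S0 := by
        intro e he
        by_cases h7 : e.1 ∈ V ∨ e.2 ∈ V
        · exact mem_union_left _ (mem_filter.2 ⟨(mem_Bs.1 (mem_Bp.1 he).1).1, h7⟩)
        · exact mem_union_right _ (mem_filter.2 ⟨he, h7⟩)
      exact_mod_cast (card_le_card this).trans (card_union_le _ _)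
    have hdet0 : ∀ e ∈ S0, dt e.1 e.2 = 1 := by
      intro e he
      rw [hS, mem_filter, mem_Bp, mem_Bs] at he
      exact (mem_dedge.1 he.1.1.1).2.2
    have hS2 : (S0.card : ℝ) ≤ K₀ + S'.card := by
      have h1 : S0 ⊆ S0.filter (fun e => |ip e.1 e.2| ≤ |t|) ∪ S' := by
        intro e he
        by_cases h7 : |ip e.1 e.2| ≤ |t|
        · exact mem_union_left _ (mem_filter.2 ⟨he, h7⟩)
        · exact mem_union_right _ (mem_filter.2 ⟨he, h7⟩)
      have h2 : (S0.filter (fun e => |ip e.1 e.2| ≤ |t|)).card ≤ K₀ := by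
        have hm : ∀ e ∈ S0.filter (fun e => |ip e.1 e.2| ≤ |t|), ip e.1 e.2 ∈ Icc (-|t|) |t| := by
          intro e he
          rw [Finset.mem_Icc]
          exact abs_le.1 (mem_filter.1 he).2
        rw [card_eq_sum_card_fiberwise (f := fun e : Qd t c × Qd t c => ip e.1 e.2) hm, hK₀]
        refine sum_le_sum fun n _ => ?_
        refine fib_le hD hmult n _ fun e he => ?_
        obtain ⟨h3, h4⟩ := mem_filter.1 he
        exact ⟨hdet0 e (mem_filter.1 h3).1, h4⟩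
      have h4 := (card_le_card h1).trans (card_union_le _ _)
      exact_mod_cast h4.trans (Nat.add_le_add_right h2 _)
    have hVE2 : C * (κ * X + ((V ∩ pball t c X).card : ℝ) / κ) ≤ b / 4 * X := by
      have h1 : ((V ∩ pball t c X).card : ℝ) / κ ≤ b / (8 * C) * X := by
        rw [div_le_iff₀ hκ0]
        calc ((V ∩ pball t c X).card : ℝ) ≤ b * κ / (8 * C) * X := hVi
          _ = b / (8 * C) * X * κ := by ring
      calc C * (κ * X + ((V ∩ pball t c X).card : ℝ) / κ) ≤ C * (κ * X + b / (8 * C) * X) := by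
            apply mul_le_mul_of_nonneg_left _ hC.le
            linarith
        _ = C * κ * X + b / 8 * X := by field_simp
        _ ≤ b / 8 * X + b / 8 * X := by nlinarith
        _ = b / 4 * X := by ring
    have hN6 : 4 * (K₀ : ℝ) ≤ b * X := by
      rw [div_le_iff₀ hb] at hN4
      linarith
    have hS3 : b / 2 * X ≤ S'.card := by
      have := hB X hN1
      linarith
    refine hS3.trans ?_
    set T := (Icc 1 N).filter (fun n : ℕ => Pr n ∧ SqM S s ((n : ℤ) ^ 2 + t * n + c)) with hT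
    -- the value of the polynomial at `nn e`
    have hval : ∀ e ∈ S', (1 ≤ nn e) ∧ ((nn e : ℤ) = ip e.1 e.2 ∨ (nn e : ℤ) = -t - ip e.1 e.2) ∧
        ((NN e : ℕ) : ℤ) = (nn e : ℤ) ^ 2 + t * (nn e) + c := by
      intro e he
      obtain ⟨he1, he2⟩ := mem_filter.1 he
      have hN := NN_eq hD (hdet0 e he1)
      rw [not_le] at he2
      have ht0 := abs_nonneg t
      have ht1 := neg_abs_le t
      have ht2 := le_abs_self t
      by_cases hp : 1 ≤ ip e.1 e.2
      · have hn : (nn e : ℤ) = ip e.1 e.2 := by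
          unfold nn
          rw [if_pos hp, Int.toNat_of_nonneg (by omega)]
        refine ⟨by omega, Or.inl hn, ?_⟩
        rw [hN, hn]
      · have habs : |ip e.1 e.2| = -(ip e.1 e.2) := abs_of_nonpos (by omega)
        rw [habs] at he2
        have hn : (nn e : ℤ) = -t - ip e.1 e.2 := by
          unfold nn
          rw [if_neg hp, Int.toNat_of_nonneg (by omega)]
        refine ⟨by omega, Or.inr hn, ?_⟩
        rw [hN, hn]
        ring
    have hmaps : ∀ e ∈ S', nn e ∈ T := by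
      intro e he
      obtain ⟨v1, v2, v3⟩ := hval e he
      have he' := he
      rw [hS', mem_filter, hS, mem_filter, mem_Bp, mem_Bs] at he'
      obtain ⟨⟨⟨⟨he1, he2, he3⟩, hpr⟩, -⟩, he4⟩ := he'
      obtain ⟨m1, m2, m3⟩ := mem_dedge.1 he1
      obtain ⟨p1, n1⟩ := (mem_pball hD).1 m1
      obtain ⟨p2, n2⟩ := (mem_pball hD).1 m2
      rw [hT, mem_filter, Finset.mem_Icc]
      refine ⟨⟨v1, ?_⟩, ?_, ?_⟩
      · have h3 : (NN e : ℝ) ≤ X ^ 2 := by
          unfold NN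
          push_cast
          rw [pow_two]
          exact mul_le_mul n1 n2 (Nat.cast_nonneg _) hXpos.le
        have h4 : 4 * (NN e : ℝ) = (2 * (nn e : ℝ) + t) ^ 2 + (4 * c - t ^ 2) := by
          have h5 := four_Q (t := t) (c := c) (nn e : ℤ)
          rw [← v3] at h5
          exact_mod_cast h5
        have hd := disc_pos hD
        have h5 : (2 * (nn e : ℝ) + t) ^ 2 ≤ (N : ℝ) ^ 2 := by
          have : (N : ℝ) = 2 * X := by rw [hXN]; ring
          rw [this]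
          nlinarith
        have h6 : 2 * (nn e : ℝ) + t ≤ N :=
          (abs_le_of_sq_le_sq' h5 (Nat.cast_nonneg _)).2
        have h7 : -(|t| : ℝ) ≤ (t : ℝ) := neg_abs_le _
        have h8 : (nn e : ℝ) ≤ N := by linarith
        exact_mod_cast h8
      · rcases v2 with v2 | v2
        · rw [v2]; exact hpr
        · rw [v2]; exact (hPr _).2 hpr
      · obtain ⟨s', m', hs1, hs2, hs3, -, hs5⟩ :=
          sq_part (NN_ne hD p1 p2) he2
        refine ⟨s', m', Nat.one_le_iff_ne_zero.2 hs1, hs2, ?_, by rw [hs5, he3]⟩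
        rw [← v3, hs3]
        push_cast
        ring
    have hfib : ∀ n ∈ T, ((S'.filter (fun e => nn e = n)).card : ℝ) ≤
        12 * ((S : ℝ) ^ 2 * Real.log N ^ g) := by
      intro n _
      have hNX : X ≤ N := by rw [hXN]; linarith [(Nat.cast_nonneg N : (0 : ℝ) ≤ N)]
      rcases (S'.filter (fun e => nn e = n)).eq_empty_or_nonempty with h0 | h0
      · rw [h0, card_empty, Nat.cast_zero]
        have : 0 ≤ Real.log N := Real.log_nonneg (by linarith)
        positivity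
      · obtain ⟨e₀, he₀⟩ := h0
        have hmem := (mem_filter.1 he₀).1
        obtain ⟨v1, v2, v3⟩ := hval e₀ hmem
        rw [mem_filter, hS', mem_filter, hS, mem_filter, mem_Bp, mem_Bs] at he₀
        obtain ⟨⟨⟨⟨⟨he1, he2, he3⟩, -⟩, he5⟩, he4⟩, he6⟩ := he₀
        obtain ⟨m1, m2, m3⟩ := mem_dedge.1 he1
        obtain ⟨p1, n1⟩ := (mem_pball hD).1 m1
        obtain ⟨p2, n2⟩ := (mem_pball hD).1 m2
        rw [he6] at v3
        have hω : (((NN e₀).primeFactors.card : ℕ) : ℝ) ≤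
            2 * (1 + ε / 4) * Real.log (Real.log X) := by
          have h1 : ¬ e₀.1 ∈ V := fun hh => he5 (Or.inl hh)
          have h2 : ¬ e₀.2 ∈ V := fun hh => he5 (Or.inr hh)
          rw [hV, mem_filter, not_and, not_lt] at h1 h2
          have h1 := h1 m1
          have h2 := h2 m2
          have h3 : (NN e₀).primeFactors.card ≤
              (nm e₀.1).primeFactors.card + (nm e₀.2).primeFactors.card := by
            unfold NN
            rw [Nat.primeFactors_mul (nm_pos hD (prim_ne_zero p1)).ne'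
              (nm_pos hD (prim_ne_zero p2)).ne']
            exact card_union_le _ _
          have h3' : (((NN e₀).primeFactors.card : ℕ) : ℝ) ≤
              (nm e₀.1).primeFactors.card + (nm e₀.2).primeFactors.card := by exact_mod_cast h3
          linarith
        have hlogX : 0 < Real.log X := Real.log_pos (by linarith)
        have hlogXN : Real.log X ≤ Real.log N := Real.log_le_log hXpos hNX
        have hg0 : 0 ≤ g := by rw [hg]; positivity
        have hdiv : (((NN e₀).divisors.card : ℕ) : ℝ) ≤ (S : ℝ) ^ 2 * Real.log N ^ g := by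
          have h1 := card_div_le (NN_ne hD p1 p2) he2
          have h2 : (((NN e₀).divisors.card : ℕ) : ℝ) ≤
              (S : ℝ) ^ 2 * (2 : ℝ) ^ ((NN e₀).primeFactors.card) := by
            exact_mod_cast h1
          refine h2.trans (mul_le_mul_of_nonneg_left ?_ (by positivity))
          calc (2 : ℝ) ^ ((NN e₀).primeFactors.card)
              = (2 : ℝ) ^ (((NN e₀).primeFactors.card : ℕ) : ℝ) := (Real.rpow_natCast _ _).symm
            _ ≤ (2 : ℝ) ^ (2 * (1 + ε / 4) * Real.log (Real.log X)) :=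
                Real.rpow_le_rpow_of_exponent_le (by norm_num) hω
            _ = Real.log X ^ g := by
                rw [Real.rpow_def_of_pos (by norm_num), Real.rpow_def_of_pos hlogX, hg]
                congr 1
                ring
            _ ≤ Real.log N ^ g := Real.rpow_le_rpow hlogX.le hlogXN hg0
        have hsub : S'.filter (fun e => nn e = n) ⊆
            (S'.filter (fun e => ip e.1 e.2 = n)) ∪
            (S'.filter (fun e => ip e.1 e.2 = -t - n)) := by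
          intro e he
          obtain ⟨g1, g2⟩ := mem_filter.1 he
          obtain ⟨-, w2, -⟩ := hval e g1
          rw [g2] at w2
          rcases w2 with w2 | w2
          · exact mem_union_left _ (mem_filter.2 ⟨g1, w2.symm⟩)
          · exact mem_union_right _ (mem_filter.2 ⟨g1, by linarith⟩)
        have hdet : ∀ e ∈ S', dt e.1 e.2 = 1 := fun e he => hdet0 e (mem_filter.1 he).1
        have hc1 := fib_le hD hmult n (S'.filter (fun e => ip e.1 e.2 = n)) (fun e he => by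
          rw [mem_filter] at he
          exact ⟨hdet e he.1, he.2⟩)
        have hc2 := fib_le hD hmult (-t - n) (S'.filter (fun e => ip e.1 e.2 = -t - n))
          (fun e he => by
            rw [mem_filter] at he
            exact ⟨hdet e he.1, he.2⟩)
        have hn1 : ((n : ℤ) ^ 2 + t * n + c).natAbs = NN e₀ := by
          rw [← v3, Int.natAbs_natCast]
        have hn2 : ((-t - (n : ℤ)) ^ 2 + t * (-t - n) + c).natAbs = NN e₀ := by
          rw [← hn1]
          congr 1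
          ring
        rw [hn1] at hc1
        rw [hn2] at hc2
        have h8 : ((S'.filter (fun e => nn e = n)).card : ℝ) ≤
            12 * (((NN e₀).divisors.card : ℕ) : ℝ) := by
          have := (card_le_card hsub).trans ((card_union_le _ _).trans (Nat.add_le_add hc1 hc2))
          have h9 : (S'.filter (fun e => nn e = n)).card ≤
            12 * (NN e₀).divisors.card := by omega
          exact_mod_cast h9
        linarith
    have hsum : (S'.card : ℝ) =
        ∑ n ∈ T, ((S'.filter (fun e => nn e = n)).card : ℝ) := by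
      have := card_eq_sum_card_fiberwise (s := S') (t := T)
        (f := fun e : Qd t c × Qd t c => nn e) hmaps
      rw [this]
      push_cast
      rfl
    rw [hsum]
    refine (sum_le_sum hfib).trans ?_
    rw [sum_const, nsmul_eq_mul]
    linarith
  -- conclusion
  have hev : ∀ᶠ x : ℝ in atTop, 48 * (S : ℝ) ^ 2 / b ≤ Real.log x ^ (2 * Real.log 2 + ε - g) :=
    ((tendsto_rpow_atTop hgap).comp Real.tendsto_log_atTop).eventually_ge_atTop _
  obtain ⟨x₀, hx₀⟩ := eventually_atTop.1 hev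
  refine ⟨⌈max (max (2 * X₁) (2 * X₂)) (max (max x₀ (8 * (K₀ : ℝ) / b)) (|t| : ℝ))⌉₊ + 6,
    fun N hN => ?_⟩
  have hN' : max (max (2 * X₁) (2 * X₂)) (max (max x₀ (8 * (K₀ : ℝ) / b)) (|t| : ℝ)) ≤ (N : ℝ) := by
    refine (Nat.le_ceil _).trans ?_
    exact_mod_cast (by omega : ⌈max (max (2 * X₁) (2 * X₂))
      (max (max x₀ (8 * (K₀ : ℝ) / b)) (|t| : ℝ))⌉₊ ≤ N)
  have h1 : 2 * X₁ ≤ (N : ℝ) := (le_max_left _ _).trans ((le_max_left _ _).trans hN')
  have h2 : 2 * X₂ ≤ (N : ℝ) := (le_max_right _ _).trans ((le_max_left _ _).trans hN')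
  have h3 : x₀ ≤ (N : ℝ) :=
    (le_max_left _ _).trans ((le_max_left _ _).trans ((le_max_right _ _).trans hN'))
  have h4 : 8 * (K₀ : ℝ) / b ≤ (N : ℝ) :=
    (le_max_right _ _).trans ((le_max_left _ _).trans ((le_max_right _ _).trans hN'))
  have h4' : (|t| : ℝ) ≤ (N : ℝ) := (le_max_right _ _).trans ((le_max_right _ _).trans hN')
  have hN3 : 6 ≤ N := by omega
  have hNr : (6 : ℝ) ≤ N := by exact_mod_cast hN3
  have h4'' : 4 * (K₀ : ℝ) / b ≤ (N : ℝ) / 2 := by
    have : 8 * (K₀ : ℝ) / b = 2 * (4 * (K₀ : ℝ) / b) := by ring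
    linarith
  have h5 := hmain N (N / 2) rfl (by linarith) (by linarith) (by linarith) h4'' h4'
  have h6 := hx₀ N h3
  have hlogpos : 0 < Real.log N := Real.log_pos (by linarith)
  generalize ((((Icc 1 N).filter
        (fun n : ℕ => Pr n ∧ SqM S s ((n : ℤ) ^ 2 + t * n + c))).card : ℕ) : ℝ) = τ at h5 ⊢
  have hgp : 0 < Real.log N ^ g := Real.rpow_pos_of_pos hlogpos _
  have hsplit : Real.log N ^ (2 * Real.log 2 + ε) =
      Real.log N ^ (2 * Real.log 2 + ε - g) * Real.log N ^ g := by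
    rw [← Real.rpow_add hlogpos]
    congr 1
    ring
  rw [div_le_iff₀ (Real.rpow_pos_of_pos hlogpos _), hsplit]
  have ht : 0 ≤ τ := by
    by_contra hneg
    push Not at hneg
    have : 0 < b / 2 * (N / 2) := by positivity
    have h8 : 12 * ((S : ℝ) ^ 2 * Real.log N ^ g) * τ ≤ 0 :=
      mul_nonpos_of_nonneg_of_nonpos (by positivity) hneg.le
    linarith
  have h7 : (N : ℝ) ≤ 48 * (S : ℝ) ^ 2 / b * (Real.log N ^ g * τ) := by
    rw [div_mul_eq_mul_div, le_div_iff₀ hb]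
    linarith
  calc (N : ℝ) ≤ 48 * (S : ℝ) ^ 2 / b * (Real.log N ^ g * τ) := h7
    _ ≤ Real.log N ^ (2 * Real.log 2 + ε - g) * (Real.log N ^ g * τ) := by
        apply mul_le_mul_of_nonneg_right h6 (by positivity)
    _ = τ * (Real.log N ^ (2 * Real.log 2 + ε - g) * Real.log N ^ g) := by ring

/-- a positive proportion of the factorizations -/
theorem pairs_of (hD : t ^ 2 < 4 * c) (Pr : ℤ → Prop) (hmult : S_MULT t c) (S : ℕ) (e : ℤ)
    (h : ∃ κ X₀ : ℝ, 0 < κ ∧ ∀ X : ℝ, X₀ ≤ X → κ * X ≤ ((Bp t c Pr S e X).card : ℝ)) :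
    ∃ κ : ℝ, 0 < κ ∧ ∃ N₀ : ℕ, ∀ N : ℕ, N₀ ≤ N → κ * N ≤
    (Set.ncard {p : ℕ × ℕ | 1 ≤ p.1 ∧ p.1 ≤ N ∧ 1 ≤ p.2 ∧ p.2 ≤ N ∧
      (∃ n : ℤ, Pr n ∧ ((p.1 * p.2 : ℕ) : ℤ) = n ^ 2 + t * n + c) ∧ SqM S e ((p.1 * p.2 : ℕ) : ℤ)} : ℝ) := by
  classical
  obtain ⟨κ, X₀, hκ, h⟩ := h
  refine ⟨κ / 12, by positivity, ⌈X₀⌉₊, fun N hN => ?_⟩
  have hX : X₀ ≤ (N : ℝ) := (Nat.le_ceil _).trans (by exact_mod_cast hN)
  have h1 := h N hX
  set T := (Icc 1 N ×ˢ Icc 1 N).filter (fun p : ℕ × ℕ =>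
    (∃ n : ℤ, Pr n ∧ ((p.1 * p.2 : ℕ) : ℤ) = n ^ 2 + t * n + c) ∧ SqM S e ((p.1 * p.2 : ℕ) : ℤ)) with hT
  have hmaps : ∀ x ∈ Bp t c Pr S e (N : ℝ),
      (fun x : Qd t c × Qd t c => (nm x.1, nm x.2)) x ∈ T := by
    intro x hx
    obtain ⟨hx0, hpr⟩ := mem_Bp.1 hx
    obtain ⟨hx1, hx2, hx3⟩ := mem_Bs.1 hx0
    obtain ⟨m1, m2, m3⟩ := mem_dedge.1 hx1
    obtain ⟨p1, n1⟩ := (mem_pball hD).1 m1
    obtain ⟨p2, n2⟩ := (mem_pball hD).1 m2
    have hnn := NN_eq hD m3
    rw [hT, mem_filter, mem_product, Finset.mem_Icc, Finset.mem_Icc]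
    refine ⟨⟨⟨nm_pos hD (prim_ne_zero p1), by exact_mod_cast n1⟩,
      ⟨nm_pos hD (prim_ne_zero p2), by exact_mod_cast n2⟩⟩, ⟨_, hpr, hnn⟩, ?_⟩
    obtain ⟨s', m', hs1, hs2, hs3, -, hs5⟩ := sq_part (NN_ne hD p1 p2) hx2
    refine ⟨s', m', Nat.one_le_iff_ne_zero.2 hs1, hs2, ?_, by rw [hs5, hx3]⟩
    change ((NN x : ℕ) : ℤ) = _
    rw [hs3]
    push_cast
    ring
  have hfib : ∀ p ∈ T, ((Bp t c Pr S e (N : ℝ)).filter (fun x => (nm x.1, nm x.2) = p)).card ≤ 12 := by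
    intro p hp
    rcases ((Bp t c Pr S e (N : ℝ)).filter (fun x => (nm x.1, nm x.2) = p)).eq_empty_or_nonempty with
      h0 | ⟨x₀, hx₀⟩
    · rw [h0]; simp
    obtain ⟨k1, k2⟩ := mem_filter.1 hx₀
    have k3 := (mem_dedge.1 (mem_Bs.1 (mem_Bp.1 k1).1).1).2.2
    have k4 := NN_eq hD k3
    set n := ip x₀.1 x₀.2 with hn
    have hsub : (Bp t c Pr S e (N : ℝ)).filter (fun x => (nm x.1, nm x.2) = p) ⊆
        (Bp t c Pr S e (N : ℝ)).filter (fun x => (nm x.1, nm x.2) = p ∧ ip x.1 x.2 = n) ∪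
        (Bp t c Pr S e (N : ℝ)).filter (fun x => (nm x.1, nm x.2) = p ∧ ip x.1 x.2 = -t - n) := by
      intro x hx
      obtain ⟨g1, g2⟩ := mem_filter.1 hx
      have g3 := (mem_dedge.1 (mem_Bs.1 (mem_Bp.1 g1).1).1).2.2
      have g4 := NN_eq hD g3
      have g5 : NN x = NN x₀ := by
        have := g2.trans k2.symm
        rw [Prod.mk.injEq] at this
        unfold NN
        rw [this.1, this.2]
      rw [g5, k4] at g4
      have g6 : (ip x.1 x.2 - n) * (ip x.1 x.2 - (-t - n)) = 0 := by linear_combination -g4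
      rcases mul_eq_zero.1 g6 with g7 | g7
      · exact mem_union_left _ (mem_filter.2 ⟨g1, g2, by linarith⟩)
      · exact mem_union_right _ (mem_filter.2 ⟨g1, g2, by linarith⟩)
    have hc4 : ∀ m : ℤ, ((Bp t c Pr S e (N : ℝ)).filter
        (fun x => (nm x.1, nm x.2) = p ∧ ip x.1 x.2 = m)).card ≤ 6 := by
      intro m
      refine hmult m p.1 _ (fun x hx => ?_)
      obtain ⟨g1, g2, g3⟩ := mem_filter.1 hx
      refine ⟨(mem_dedge.1 (mem_Bs.1 (mem_Bp.1 g1).1).1).2.2, g3, ?_⟩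
      rw [← g2]
    have := (card_le_card hsub).trans
      ((card_union_le _ _).trans (Nat.add_le_add (hc4 n) (hc4 (-t - n))))
    omega
  have hcard : (Bp t c Pr S e (N : ℝ)).card ≤ 12 * T.card :=
    card_le_mul_card_image_of_maps_to hmaps 12 hfib
  have hcard' : ((Bp t c Pr S e (N : ℝ)).card : ℝ) ≤ 12 * (T.card : ℝ) := by exact_mod_cast hcard
  have hset : {p : ℕ × ℕ | 1 ≤ p.1 ∧ p.1 ≤ N ∧ 1 ≤ p.2 ∧ p.2 ≤ N ∧
      (∃ n : ℤ, Pr n ∧ ((p.1 * p.2 : ℕ) : ℤ) = n ^ 2 + t * n + c) ∧ SqM S e ((p.1 * p.2 : ℕ) : ℤ)} =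
      (T : Set (ℕ × ℕ)) := by
    ext p
    rw [hT]
    simp only [Set.mem_setOf_eq, coe_filter, mem_product, Finset.mem_Icc]
    tauto
  rw [hset, Set.ncard_coe_finset]
  linarith

theorem finp (hD : t ^ 2 < 4 * c) (Pr : ℤ → Prop) (hPr : ∀ n, Pr (-t - n) ↔ Pr n)
    (hmult : S_MULT t c) (htyp : S_TYP t c) (hve : S_VE t c) (hsqb : S_SQB t c)
    (h : S_EDGEP t c Pr) : S_FINP t c Pr := by
  classical
  obtain ⟨S, hS⟩ := bp_all h hsqb
  refine ⟨S, fun e he => ⟨fun ε hε => ?_, pairs_of hD Pr hmult S e (hS e he)⟩⟩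
  obtain ⟨N₀, h⟩ := count_of hD Pr hPr hmult htyp hve S e (hS e he) ε hε
  refine ⟨N₀, fun N hN => (h N hN).trans (le_of_eq ?_)⟩
  have e1 : {n : ℕ | 1 ≤ n ∧ n ≤ N ∧ Pr n ∧ SqM S e ((n : ℤ) ^ 2 + t * n + c)} =
      (((Finset.Icc 1 N).filter
        (fun n : ℕ => Pr n ∧ SqM S e ((n : ℤ) ^ 2 + t * n + c)) : Finset ℕ) : Set ℕ) := by
    ext n
    rw [Finset.mem_coe, Finset.mem_filter, Finset.mem_Icc, Set.mem_setOf_eq, and_assoc]
  rw [e1, Set.ncard_coe_finset]

end Pool.Agent.W338.GC
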